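import Pool.Agent.Y912.LP.Line

set_option autoImplicit false

open scoped ContDiff Manifold

noncomputable section

namespace Pool.Agent.Results.MP_4926dc_gt.NoLocalParallel

open Pool.Agent.Results.MP_4926dc_gt.NoParallelNull

/-- `q : N → M` is a local isometry: a local diffeomorphism with `h = q^* g`. The inclusions of the
open subsets of `M` and the coverings of `M` of any degree (with the pulled-back metric) are such
maps. -/
structure IsLocalIsometry {E H M N : Type} [NormedAddCommGroup E] [NormedSpace ℝ E]
    [TopologicalSpace H] {I : ModelWithCorners ℝ E H} [TopologicalSpace M] [ChartedSpace H M]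
    [IsManifold I ∞ M] [TopologicalSpace N] [ChartedSpace H N] [IsManifold I ∞ N]
    (g : PseudoMetric I M) (h : PseudoMetric I N) (q : N → M) : Prop where
  local_diffeo : IsLocalDiffeomorph I I ∞ q
  pullback : ∀ (y : N) (v w : TangentSpace I y),
    h.val y v w = g.val (q y) (mfderiv I I q y v) (mfderiv I I q y w)

/-- All covariant derivatives of `V` (for the Levi-Civita connection of `g`) are multiples of `V`:
`∇_v V ∈ ℝ V`. A parallel field satisfies this, and so does every field which spans a parallel line
field. -/
def ParallelDirection {E H M : Type} [NormedAddCommGroup E] [NormedSpace ℝ E]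
    [TopologicalSpace H] {I : ModelWithCorners ℝ E H} [TopologicalSpace M] [ChartedSpace H M]
    [IsManifold I ∞ M] (g : PseudoMetric I M) (V : ∀ x : M, TangentSpace I x) : Prop :=
  ∀ cov : CovariantDerivative I E (fun x : M => TangentSpace I x), IsLeviCivita g cov →
    ∀ (x : M) (v : TangentSpace I x), ∃ c : ℝ, cov V x v = c • V x

/-- `g` has a Levi-Civita connection, and every smooth vector field `V` with `∇_v V ∈ ℝ V` for all
`v` vanishes identically (so there is no nonzero parallel field and no parallel line field). -/
def NoDirection {E H M : Type} [NormedAddCommGroup E] [NormedSpace ℝ E]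
    [TopologicalSpace H] {I : ModelWithCorners ℝ E H} [TopologicalSpace M] [ChartedSpace H M]
    [IsManifold I ∞ M] (g : PseudoMetric I M) : Prop :=
  (∃ cov : CovariantDerivative I E (fun x : M => TangentSpace I x), IsLeviCivita g cov) ∧
    ∀ V : ∀ x : M, TangentSpace I x, (∀ x, SmoothFieldAt I V x) → ParallelDirection g V →
      ∀ x, V x = 0

/-- Every manifold which is locally isometric to `(M, g)` has the property `NoDirection`. -/
def NoLocalDirection {E H M : Type} [NormedAddCommGroup E] [NormedSpace ℝ E]
    [TopologicalSpace H] {I : ModelWithCorners ℝ E H} [TopologicalSpace M] [ChartedSpace H M]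
    [IsManifold I ∞ M] (g : PseudoMetric I M) : Prop :=
  ∀ (N : Type) [TopologicalSpace N] [ChartedSpace H N] [IsManifold I ∞ N] (h : PseudoMetric I N)
    (q : N → M), IsLocalIsometry g h q → NoDirection h

/-- `(M, g)` carries a smooth, nowhere zero, self-adjoint, parallel endomorphism field `A` with
`A² = 0`. -/
def CarriesNilpotent {E H M : Type} [NormedAddCommGroup E] [NormedSpace ℝ E]
    [TopologicalSpace H] {I : ModelWithCorners ℝ E H} [TopologicalSpace M] [ChartedSpace H M]
    [IsManifold I ∞ M] (g : PseudoMetric I M) : Prop :=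
  ∃ A : ∀ x : M, TangentSpace I x →L[ℝ] TangentSpace I x,
    SmoothEndo A ∧ (∀ x, A x ≠ 0) ∧ (∀ x, (A x) ^ 2 = 0) ∧
      (∀ (x : M) (v w : TangentSpace I x), g.val x (A x v) w = g.val x v (A x w)) ∧
      ParallelEndo g A

/-- There is a closed connected manifold `M` of dimension six (homeomorphic to
`S³ × S¹ × S¹ × S¹`) with a pseudo-Riemannian metric `g` and a nowhere zero `g`-self-adjoint
parallel endomorphism `A` with `A² = 0`, such that no manifold which is locally isometric to it (no
covering of any degree, no open subset) carries a smooth vector field `V ≢ 0`, light-like or not,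
which is parallel or spans a parallel line field. In particular the question Q1 has a negative
answer. -/
theorem result :
    (∃ (E H : Type) (_ : NormedAddCommGroup E) (_ : NormedSpace ℝ E) (_ : TopologicalSpace H)
      (I : ModelWithCorners ℝ E H) (M : Type) (_ : TopologicalSpace M) (_ : ChartedSpace H M)
      (_ : IsManifold I ∞ M) (g : PseudoMetric I M),
        Module.finrank ℝ E = 6 ∧ I.Boundaryless ∧ CompactSpace M ∧ ConnectedSpace M ∧ T2Space M ∧
          Nonempty (M ≃ₜ G6) ∧ CarriesNilpotent g ∧ NoLocalDirection g) ∧ ¬ Question := by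
  have main : NoLocalDirection PG.metric := by
    intro N _ _ _ h q hq
    obtain ⟨P, rfl⟩ := Y912.LP.lift_par hq.local_diffeo hq.pullback
    refine ⟨⟨P.cov, P.isLeviCivita⟩, fun V hV hp x => ?_⟩
    exact Y912.LP.no_line P.frame P.isLeviCivita hV (hp P.cov P.isLeviCivita) x
  refine ⟨⟨_, _, inferInstance, inferInstance, inferInstance, I6, G6, inferInstance, inferInstance,
    inferInstance, PG.metric, ?_, inferInstance, inferInstance, inferInstance, inferInstance,
    ⟨Homeomorph.refl G6⟩, ⟨PG.A, PG.smooth_A, PG.A_ne, PG.A_sq, PG.A_sa, PG.A_par⟩, main⟩, ?_⟩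
  · simp [Module.finrank_prod]
  intro hQ
  have h := hQ _ _ I6 G6 PG.metric PG.A PG.smooth_A ⟨1, PG.A_ne 1⟩ PG.A_sa PG.A_par
    ⟨2, by norm_num, PG.A_sq⟩
  rcases h with h | ⟨N, i1, i2, i3, h, π, hc, h'⟩
  · exact no_carrier PG h
  · obtain ⟨V, hV, ⟨x, hx⟩, -, hp⟩ := h'
    apply hx
    refine (main N h π ⟨hc.local_diffeo, hc.pullback⟩).2 V hV ?_ x
    intro cov hcov x v
    refine ⟨0, ?_⟩
    rw [hp cov hcov x, zero_smul]
    rfl

end Pool.Agent.Results.MP_4926dc_gt.NoLocalParallel
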